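import Pool.Agent.Helper17_TS.Irr
import Pool.Agent.Helper31_Mean.BoxW
import Pool.Agent.Helper31_Mean.Red

/-!
Counting the polynomials of the box whose reductions at the places over the primes of a finite set
are all reducible.
-/

set_option autoImplicit false

open Polynomial NumberField

namespace Pool.Agent.TS.H17

open H31M

section

variable {K : Type} [Field K] [NumberField K] {ι : Type} [Fintype ι]
  (b : Module.Basis ι ℤ (𝓞 K))

/-- coordinates with reducible reduction -/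
def OmI (P : Ideal (𝓞 K)) (p : ℕ) [CharP (𝓞 K ⧸ P) p] (n : ℕ) : Set (Fin n × ι → ZMod p) :=
  red b P p n ⁻¹' {z | ¬ Irreducible (poly z)}

theorem card_OmI (P : Ideal (𝓞 K)) [hP : P.IsPrime] (p : ℕ) (hp : p.Prime) (hp3 : 3 ≤ p)
    (hpP : ((p : ℕ) : 𝓞 K) ∈ P) [CharP (𝓞 K ⧸ P) p] (n : ℕ) (hn : 1 ≤ n) :
    2 * n * Nat.card (OmI b P p n) ≤ (2 * n - 1) * p ^ Fintype.card (Fin n × ι) := by
  classical
  have hPne : P ≠ ⊥ := by
    rintro rfl
    rw [Ideal.mem_bot, Nat.cast_eq_zero] at hpP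
    exact hp.ne_zero hpP
  have hPmax : P.IsMaximal := hP.isMaximal hPne
  let _ : Field (𝓞 K ⧸ P) := Ideal.Quotient.field P
  have hfin : Finite (𝓞 K ⧸ P) := by
    have h1 : Ideal.absNorm P ≠ 0 := by
      rw [Ne, Ideal.absNorm_eq_zero_iff]
      exact hPne
    exact Ideal.absNorm_ne_zero_iff _ |>.1 h1
  haveI : NeZero p := ⟨hp.ne_zero⟩
  let _ : Fintype (𝓞 K ⧸ P) := Fintype.ofFinite _
  obtain ⟨q, hq⟩ : ∃ q, q = Fintype.card (𝓞 K ⧸ P) := ⟨_, rfl⟩
  have hqpos : 0 < q := by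
    rw [hq]
    exact Fintype.card_pos
  have hpq : p ≤ q := by
    have h1 : p ∣ q := by
      rw [hq]
      exact (CharP.cast_eq_zero_iff (𝓞 K ⧸ P) p _).1 (FiniteField.cast_card_eq_zero _)
    exact Nat.le_of_dvd hqpos h1
  have h1 := fiber_count (red b P p n) (red_surjective b P p n) {z | ¬ Irreducible (poly z)}
  have h2 := card_nonirr (k := 𝓞 K ⧸ P) hn (by rw [← hq]; exact hp3.trans hpq)
  have hA : Nat.card (Fin n × ι → ZMod p) = p ^ Fintype.card (Fin n × ι) := by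
    rw [Nat.card_eq_fintype_card, Fintype.card_fun, ZMod.card]
  have hB : Nat.card (Fin n → 𝓞 K ⧸ P) = q ^ n := by
    rw [Nat.card_eq_fintype_card, Fintype.card_fun, Fintype.card_fin, hq]
  rw [hA, hB] at h1
  change Nat.card (OmI b P p n) * q ^ n ≤
    Nat.card {z : Fin n → 𝓞 K ⧸ P // ¬ Irreducible (poly z)} *
    p ^ Fintype.card (Fin n × ι) at h1
  rw [← hq] at h2
  have hq0 : 0 < q ^ n := pow_pos hqpos _
  apply Nat.le_of_mul_le_mul_left _ hq0
  calc q ^ n * (2 * n * Nat.card (OmI b P p n))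
      = 2 * n * (Nat.card (OmI b P p n) * q ^ n) := by ring
    _ ≤ 2 * n * (Nat.card {z : Fin n → 𝓞 K ⧸ P // ¬ Irreducible (poly z)} *
        p ^ Fintype.card (Fin n × ι)) := Nat.mul_le_mul_left _ h1
    _ = (2 * n * Nat.card {z : Fin n → 𝓞 K ⧸ P // ¬ Irreducible (poly z)}) *
        p ^ Fintype.card (Fin n × ι) := by ring
    _ ≤ ((2 * n - 1) * q ^ n) * p ^ Fintype.card (Fin n × ι) := Nat.mul_le_mul_right _ h2
    _ = q ^ n * ((2 * n - 1) * p ^ Fintype.card (Fin n × ι)) := by ring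

/-- The number of polynomials of the box which are reducible at all primes of `S`. -/
theorem irr_count (P : ℕ → Ideal (𝓞 K)) (hP : ∀ p, p.Prime → (P p).IsPrime ∧
      ((p : ℕ) : 𝓞 K) ∈ P p) (n : ℕ) (hn : 1 ≤ n) (S : Finset ℕ)
    (hS : ∀ p ∈ S, p.Prime) (hS3 : ∀ p ∈ S, 3 ≤ p) (H : ℕ)
    (hM : ∏ p ∈ S, p ≤ 2 * H + 1) :
    ({a : Fin n → 𝓞 K | (∀ i j, |b.repr (a i) j| ≤ H) ∧
        ∀ p ∈ S, ¬ Irreducible ((poly a).map (Ideal.Quotient.mk (P p)))}.ncard : ℝ) *
      ((2 * n : ℝ) / (2 * n - 1)) ^ S.card ≤ (3 * (2 * H + 1)) ^ Fintype.card (Fin n × ι) := by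
  classical
  have hch : ∀ p ∈ S, CharP (𝓞 K ⧸ P p) p := fun p hp => by
    haveI := (hP p (hS p hp)).1
    exact charP_quot (P p) p (hS p hp) (hP p (hS p hp)).2
  have hn1 : (1 : ℝ) ≤ n := by exact_mod_cast hn
  have hpos : (0 : ℝ) < 2 * n - 1 := by linarith
  have hw : ∀ p ∈ S, (0 : ℝ) ≤ (2 * n : ℝ) / (2 * n - 1) := by
    intro p hp
    positivity
  let Ω : (p : ℕ) → Set (Fin n × ι → ZMod p) := fun p =>
    if hp : p ∈ S then (haveI := hch p hp; OmI b (P p) p n) else ∅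
  have hΩ : ∀ p ∈ S, (Nat.card (Ω p) : ℝ) * ((2 * n : ℝ) / (2 * n - 1)) ≤
      (p : ℝ) ^ Fintype.card (Fin n × ι) := by
    intro p hp
    haveI := hch p hp
    haveI := (hP p (hS p hp)).1
    have h1 : Ω p = OmI b (P p) p n := by simp only [Ω, dif_pos hp]
    rw [h1]
    have h2 := card_OmI b (P p) p (hS p hp) (hS3 p hp) (hP p (hS p hp)).2 n hn
    have h3 : ((2 * n - 1 : ℕ) : ℝ) = 2 * n - 1 := by
      rw [Nat.cast_sub (by omega)]
      push_cast
      ring
    have h4 : (2 * n : ℝ) * (Nat.card (OmI b (P p) p n) : ℝ) ≤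
        ((2 * n - 1 : ℕ) : ℝ) * (p : ℝ) ^ Fintype.card (Fin n × ι) := by exact_mod_cast h2
    rw [h3] at h4
    rw [← mul_div_assoc, div_le_iff₀ hpos]
    linarith
  have hmain := box_countW (J := Fin n × ι) S hS Ω (fun _ => (2 * n : ℝ) / (2 * n - 1)) hw hΩ H hM
  rw [Finset.prod_const] at hmain
  refine le_trans ?_ hmain
  apply mul_le_mul_of_nonneg_right _ (by positivity)
  let co : (Fin n → 𝓞 K) → (Fin n × ι → ℤ) := fun a x => b.repr (a x.1) x.2
  have hco : Function.Injective co := by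
    intro a a' h
    funext i
    apply b.repr.injective
    ext j
    exact congrFun h (i, j)
  have hfin : {x : Fin n × ι → ℤ | (∀ j, |x j| ≤ H) ∧
      ∀ p ∈ S, (fun j => (x j : ZMod p)) ∈ Ω p}.Finite := by
    apply Set.Finite.subset (Set.Finite.pi' (fun _ : Fin n × ι => Set.finite_Icc (-(H : ℤ)) H))
    intro x hx j
    exact Set.mem_Icc.2 (abs_le.1 (hx.1 j))
  have h1 := Set.ncard_le_ncard_of_injOn
    (s := {a : Fin n → 𝓞 K | (∀ i j, |b.repr (a i) j| ≤ H) ∧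
      ∀ p ∈ S, ¬ Irreducible ((poly a).map (Ideal.Quotient.mk (P p)))})
    (t := {x : Fin n × ι → ℤ | (∀ j, |x j| ≤ H) ∧ ∀ p ∈ S, (fun j => (x j : ZMod p)) ∈ Ω p})
    co (by
      rintro a ⟨ha1, ha2⟩
      refine ⟨fun x => ha1 x.1 x.2, ?_⟩
      intro p hp
      haveI := hch p hp
      have h1 : Ω p = OmI b (P p) p n := by simp only [Ω, dif_pos hp]
      rw [h1]
      change ¬ Irreducible (poly (red b (P p) p n
        (fun x : Fin n × ι => ((b.repr (a x.1) x.2 : ℤ) : ZMod p))))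
      have h2 : red b (P p) p n
          (fun x : Fin n × ι => ((b.repr (a x.1) x.2 : ℤ) : ZMod p)) =
          fun i => Ideal.Quotient.mk (P p) (a i) :=
        funext fun i => red_cast b (P p) p n a i
      rw [h2, ← poly_map]
      exact ha2 p hp) hco.injOn hfin
  exact_mod_cast h1

theorem box_fin (n H : ℕ) (A : (Fin n → 𝓞 K) → Prop) :
    {a : Fin n → 𝓞 K | (∀ i j, |b.repr (a i) j| ≤ H) ∧ A a}.Finite := by
  let co : (Fin n → 𝓞 K) → (Fin n × ι → ℤ) := fun a x => b.repr (a x.1) x.2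
  have hco : Function.Injective co := by
    intro a a' h
    funext i
    apply b.repr.injective
    ext j
    exact congrFun h (i, j)
  have hfin : {x : Fin n × ι → ℤ | (∀ j, |x j| ≤ H)}.Finite := by
    apply Set.Finite.subset (Set.Finite.pi' (fun _ : Fin n × ι => Set.finite_Icc (-(H : ℤ)) H))
    intro x hx j
    exact Set.mem_Icc.2 (abs_le.1 (hx j))
  refine (hfin.preimage hco.injOn).subset ?_
  intro a ha x
  exact ha.1 x.1 x.2

end

end Pool.Agent.TS.H17
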