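import Pool.Agent.Helper31_Mean.Dens

/-!
# The density of irreducible polynomials over a finite field
-/

open Polynomial

set_option autoImplicit false

namespace Pool.Agent.TS.H17

open H31M

theorem sum_pow_le (q : ℕ) (hq : 3 ≤ q) (m : ℕ) :
    2 * ∑ d ∈ Finset.Icc 1 m, q ^ d ≤ q ^ (m + 1) := by
  induction m with
  | zero => simp
  | succ m ih =>
    rw [Finset.sum_Icc_succ_top (by omega), mul_add]
    calc 2 * ∑ d ∈ Finset.Icc 1 m, q ^ d + 2 * q ^ (m + 1)
        ≤ q ^ (m + 1) + 2 * q ^ (m + 1) := Nat.add_le_add_right ih _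
      _ = 3 * q ^ (m + 1) := by ring
      _ ≤ q * q ^ (m + 1) := Nat.mul_le_mul_right _ hq
      _ = q ^ (m + 1 + 1) := by ring

theorem card_irr {k : Type} [Field k] [Fintype k] {n : ℕ} (hn : 1 ≤ n)
    (hq : 3 ≤ Fintype.card k) :
    Fintype.card k ^ n ≤ 2 * n * Nat.card {z : Fin n → k // Irreducible (poly z)} := by
  classical
  obtain ⟨p, hp⟩ := CharP.exists k
  have hpp : Fact (Nat.Prime p) := ⟨CharP.char_is_prime k p⟩
  have hn0 : NeZero n := ⟨by omega⟩
  obtain ⟨q, hqq⟩ : ∃ q, q = Fintype.card k := ⟨_, rfl⟩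
  have hqc : Nat.card k = q := by rw [Nat.card_eq_fintype_card, hqq]
  rw [← hqq] at hq ⊢
  let L := FiniteField.Extension k p n
  letI : Fintype L := Fintype.ofFinite L
  have hL : Fintype.card L = q ^ n := by
    rw [← Nat.card_eq_fintype_card, FiniteField.natCard_extension, hqc]
  let A : Finset L := Finset.univ.filter fun α => (minpoly k α).natDegree = n
  let B : ℕ → Finset L := fun d => Finset.univ.filter fun α => α ^ q ^ d = α
  have hint : ∀ α : L, IsIntegral k α := fun α => Algebra.IsIntegral.isIntegral α
  have hcov : (Finset.univ : Finset L) ⊆ A ∪ (Finset.Icc 1 (n / 2)).biUnion B := by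
    intro α _
    rw [Finset.mem_union]
    by_cases h : (minpoly k α).natDegree = n
    · left
      exact Finset.mem_filter.2 ⟨Finset.mem_univ _, h⟩
    · right
      have hd : (minpoly k α).natDegree ∣ n := by
        have := minpoly.degree_dvd (hint α)
        rwa [FiniteField.finrank_extension] at this
      have hpos : 0 < (minpoly k α).natDegree := minpoly.natDegree_pos (hint α)
      obtain ⟨e, he⟩ := hd
      have he2 : 2 ≤ e := by
        rcases e with _ | _ | e
        · omega
        · exact absurd (by rw [zero_add, mul_one] at he; exact he.symm) h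
        · omega
      have hle : (minpoly k α).natDegree ≤ n / 2 := by
        rw [Nat.le_div_iff_mul_le (by norm_num)]
        calc (minpoly k α).natDegree * 2 ≤ (minpoly k α).natDegree * e :=
              Nat.mul_le_mul_left _ he2
          _ = n := he.symm
      rw [Finset.mem_biUnion]
      refine ⟨_, Finset.mem_Icc.2 ⟨hpos, hle⟩, Finset.mem_filter.2 ⟨Finset.mem_univ _, ?_⟩⟩
      have h1 := ((minpoly.irreducible (hint α)).natDegree_dvd_iff_dvd_X_pow_card_pow_sub_X
        (n := (minpoly k α).natDegree)).1 dvd_rfl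
      obtain ⟨r, hr⟩ := h1
      have h2 := congrArg (aeval α) hr
      rw [map_mul, minpoly.aeval, zero_mul, map_sub, map_pow, aeval_X, sub_eq_zero, hqc] at h2
      exact h2
  have hB : ∀ d ∈ Finset.Icc 1 (n / 2), (B d).card ≤ q ^ d := by
    intro d hd
    have hd1 : 1 ≤ d := (Finset.mem_Icc.1 hd).1
    have hq1 : 1 < q ^ d := Nat.one_lt_pow (by omega) (by omega)
    have hne : (X ^ q ^ d - X : L[X]) ≠ 0 := FiniteField.X_pow_card_sub_X_ne_zero L hq1
    calc (B d).card ≤ (X ^ q ^ d - X : L[X]).roots.toFinset.card := by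
          apply Finset.card_le_card
          intro α hα
          rw [Multiset.mem_toFinset, mem_roots hne, IsRoot.def, eval_sub, eval_pow, eval_X]
          exact sub_eq_zero.2 (Finset.mem_filter.1 hα).2
      _ ≤ Multiset.card (X ^ q ^ d - X : L[X]).roots := Multiset.toFinset_card_le _
      _ ≤ (X ^ q ^ d - X : L[X]).natDegree := card_roots' _
      _ = q ^ d := FiniteField.X_pow_card_sub_X_natDegree_eq L hq1
  have h1 : q ^ n ≤ A.card + ∑ d ∈ Finset.Icc 1 (n / 2), q ^ d := by
    rw [← hL]
    calc Fintype.card L = (Finset.univ : Finset L).card := rfl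
      _ ≤ (A ∪ (Finset.Icc 1 (n / 2)).biUnion B).card := Finset.card_le_card hcov
      _ ≤ A.card + ((Finset.Icc 1 (n / 2)).biUnion B).card := Finset.card_union_le _ _
      _ ≤ A.card + ∑ d ∈ Finset.Icc 1 (n / 2), (B d).card :=
          Nat.add_le_add_left Finset.card_biUnion_le _
      _ ≤ A.card + ∑ d ∈ Finset.Icc 1 (n / 2), q ^ d :=
          Nat.add_le_add_left (Finset.sum_le_sum hB) _
  have h2 : 2 * ∑ d ∈ Finset.Icc 1 (n / 2), q ^ d ≤ q ^ n := by
    rcases Nat.eq_zero_or_pos (n / 2) with h | h
    · rw [h]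
      simp
    · exact (sum_pow_le q hq _).trans (Nat.pow_le_pow_right (by omega) (by omega))
  have h3 : q ^ n ≤ 2 * A.card := by omega
  -- the fibres of the minimal polynomial
  let T : Finset (Fin n → k) := Finset.univ.filter fun z => Irreducible (poly z)
  have hT : Nat.card {z : Fin n → k // Irreducible (poly z)} = T.card := by
    rw [Nat.card_eq_fintype_card, Fintype.card_subtype]
  have hmin : ∀ α ∈ A, minpoly k α = poly (fun i : Fin n => (minpoly k α).coeff i) := by
    intro α hα
    exact eq_poly (minpoly.monic (hint α)) (Finset.mem_filter.1 hα).2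
  have h4 : A.card ≤ n * T.card := by
    refine Finset.card_le_mul_card_image_of_maps_to
      (f := fun α : L => fun i : Fin n => (minpoly k α).coeff i) ?_ n ?_
    · intro α hα
      refine Finset.mem_filter.2 ⟨Finset.mem_univ _, ?_⟩
      rw [← hmin α hα]
      exact minpoly.irreducible (hint α)
    · intro z _
      have hz0 : (poly z).map (algebraMap k L) ≠ 0 :=
        (Polynomial.map_ne_zero (poly_monic z).ne_zero)
      calc (A.filter fun α => (fun i : Fin n => (minpoly k α).coeff i) = z).card
          ≤ ((poly z).map (algebraMap k L)).roots.toFinset.card := by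
            apply Finset.card_le_card
            intro α hα
            obtain ⟨hα1, hα2⟩ := Finset.mem_filter.1 hα
            rw [Multiset.mem_toFinset, mem_roots hz0, IsRoot.def, eval_map_algebraMap, ← hα2,
              ← hmin α hα1, minpoly.aeval]
        _ ≤ Multiset.card ((poly z).map (algebraMap k L)).roots := Multiset.toFinset_card_le _
        _ ≤ ((poly z).map (algebraMap k L)).natDegree := card_roots' _
        _ = n := by rw [natDegree_map, poly_natDegree]
  rw [hT]
  calc q ^ n ≤ 2 * A.card := h3
    _ ≤ 2 * (n * T.card) := Nat.mul_le_mul_left _ h4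
    _ = 2 * n * T.card := by ring

theorem card_nonirr {k : Type} [Field k] [Fintype k] {n : ℕ} (hn : 1 ≤ n)
    (hq : 3 ≤ Fintype.card k) :
    2 * n * Nat.card {z : Fin n → k // ¬ Irreducible (poly z)} ≤
      (2 * n - 1) * Fintype.card k ^ n := by
  classical
  have h1 := card_irr (k := k) hn hq
  have h2 : Nat.card {z : Fin n → k // Irreducible (poly z)} +
      Nat.card {z : Fin n → k // ¬ Irreducible (poly z)} = Fintype.card k ^ n := by
    rw [Nat.card_eq_fintype_card, Nat.card_eq_fintype_card, Fintype.card_subtype_compl,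
      ← Nat.add_sub_assoc (Fintype.card_subtype_le _), Nat.add_sub_cancel_left, Fintype.card_fun,
      Fintype.card_fin]
  obtain ⟨m, rfl⟩ : ∃ m, n = m + 1 := ⟨n - 1, by omega⟩
  have h3 : 2 * (m + 1) - 1 = 2 * m + 1 := by omega
  rw [h3]
  nlinarith

end Pool.Agent.TS.H17
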