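import Pool.Agent.Helper23_TS.StmtsI
import Pool.Agent.Helper23_TS.Plc
import Pool.Agent.Helper31_Mean.Dens

/-!
# Irreducible reduction: extension of the residue field, the local bound for all `r`
-/

set_option autoImplicit false

open Polynomial NumberField IsDedekindDomain

namespace Pool.Agent.TS.H17

open H12UBI H58UB Pool.Agent.TS H31M

/-- an irreducible polynomial stays irreducible in an extension of coprime degree -/
theorem irr_map {k L : Type} [Field k] [Field L] [Algebra k L] [Module.Finite k L] {q : k[X]}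
    (hq : Irreducible q) (hcop : Nat.Coprime (Module.finrank k L) q.natDegree) :
    Irreducible (q.map (algebraMap k L)) := by
  have hq0 : q ≠ 0 := hq.ne_zero
  have hdeg : (q.map (algebraMap k L)).natDegree = q.natDegree := natDegree_map _
  have hpos : 0 < q.natDegree := hq.natDegree_pos
  obtain ⟨s, hs, hsd⟩ := Polynomial.exists_irreducible_of_natDegree_pos
    (f := q.map (algebraMap k L)) (by rw [hdeg]; exact hpos)
  have : Fact (Irreducible s) := ⟨hs⟩
  have hfin : Module.Finite L (AdjoinRoot s) := Module.Finite.of_basis (AdjoinRoot.powerBasis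
    hs.ne_zero).basis
  have hfr : Module.finrank L (AdjoinRoot s) = s.natDegree := by
    rw [(AdjoinRoot.powerBasis hs.ne_zero).finrank, AdjoinRoot.powerBasis_dim]
  have hfin2 : Module.Finite k (AdjoinRoot s) := Module.Finite.trans L (AdjoinRoot s)
  have hroot : aeval (AdjoinRoot.root s) q = 0 := by
    obtain ⟨t, ht⟩ := hsd
    have h1 : aeval (AdjoinRoot.root s) (q.map (algebraMap k L)) = 0 := by
      rw [ht, map_mul, AdjoinRoot.aeval_eq, AdjoinRoot.mk_self, zero_mul]
    rwa [aeval_map_algebraMap] at h1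
  have hmin : (minpoly k (AdjoinRoot.root s)).natDegree = q.natDegree := by
    have h2 := minpoly.eq_of_irreducible hq hroot
    rw [← h2, natDegree_mul_C (inv_ne_zero (leadingCoeff_ne_zero.2 hq0))]
  have hdvd : q.natDegree ∣ Module.finrank k L * s.natDegree := by
    rw [← hfr, Module.finrank_mul_finrank, ← hmin]
    exact minpoly.degree_dvd (Algebra.IsIntegral.isIntegral _)
  have hdvd2 : q.natDegree ∣ s.natDegree := (Nat.Coprime.symm hcop).dvd_of_dvd_mul_left hdvd
  have hle : q.natDegree ≤ s.natDegree := Nat.le_of_dvd hs.natDegree_pos hdvd2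
  have hass : Associated s (q.map (algebraMap k L)) :=
    associated_of_dvd_of_natDegree_le hsd ((Polynomial.map_ne_zero hq0)) (by rw [hdeg]; exact hle)
  exact hass.irreducible hs

/-- the degree of a residue field extension -/
theorem res_deg (K K₁ : Type) [Field K] [NumberField K] [Field K₁] [NumberField K₁] [Algebra K K₁]
    (P : Ideal (𝓞 K)) [P.IsMaximal] (hP0 : P ≠ ⊥) (P' : Ideal (𝓞 K₁)) [P'.IsPrime]
    [P'.LiesOver P] :
    Module.finrank (𝓞 K ⧸ P) (𝓞 K₁ ⧸ P') ≤ Module.finrank K K₁ := by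
  haveI : NoZeroSMulDivisors (𝓞 K) (𝓞 K₁) := by
    refine ⟨fun {c x} h => ?_⟩
    rw [Algebra.smul_def, mul_eq_zero] at h
    rcases h with h | h
    · exact Or.inl ((map_eq_zero_iff _ (FaithfulSMul.algebraMap_injective (𝓞 K) (𝓞 K₁))).1 h)
    · exact Or.inr h
  have h1 := Ideal.inertiaDeg_le_finrank (R := 𝓞 K) (S := 𝓞 K₁) (p := P) K K₁ P' hP0
  rwa [Ideal.inertiaDeg'_algebraMap] at h1

theorem irr_res (K K₁ : Type) [Field K] [NumberField K] [Field K₁] [NumberField K₁] [Algebra K K₁]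
    {n : ℕ} (f : (𝓞 K)[X]) (hfm : f.Monic) (hfn : f.natDegree = n) (P : Ideal (𝓞 K))
    (hPp : P.IsPrime) (hP0 : P ≠ ⊥)
    (hirr : Irreducible (f.map (Ideal.Quotient.mk P)))
    (hcop : ∀ i, 0 < i → i ≤ Module.finrank K K₁ → Nat.Coprime i n) :
    ∃ w : HeightOneSpectrum (𝓞 K₁),
      (∀ x ∈ P, algebraMap (𝓞 K) (𝓞 K₁) x ∈ w.asIdeal) ∧
      Irreducible ((f.map (algebraMap (𝓞 K) (𝓞 K₁))).map
        (Ideal.Quotient.mk w.asIdeal)) := by
  have hPm : P.IsMaximal := hPp.isMaximal hP0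
  obtain ⟨⟨P', hP'prime, hP'v⟩⟩ := Ideal.nonempty_primesOver (S := 𝓞 K₁) P
  have hmem : ∀ x : 𝓞 K, x ∈ P ↔ algebraMap (𝓞 K) (𝓞 K₁) x ∈ P' := by
    intro x
    have h1 : x ∈ P ↔ x ∈ P'.under (𝓞 K) := by rw [← hP'v.over]
    exact h1
  have hP'0 : P' ≠ ⊥ := by
    rintro rfl
    apply hP0
    rw [eq_bot_iff]
    intro x hx
    have h1 := (hmem x).1 hx
    rw [Ideal.mem_bot] at h1 ⊢
    exact (map_eq_zero_iff _ (FaithfulSMul.algebraMap_injective (𝓞 K) (𝓞 K₁))).1 h1
  have hP'm : P'.IsMaximal := hP'prime.isMaximal hP'0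
  refine ⟨⟨P', hP'prime, hP'0⟩, fun x hx => (hmem x).1 hx, ?_⟩
  let _ : Field (𝓞 K ⧸ P) := Ideal.Quotient.field P
  let _ : Field (𝓞 K₁ ⧸ P') := Ideal.Quotient.field P'
  have hfin1 : Finite (𝓞 K₁ ⧸ P') := by
    have h1 : Ideal.absNorm P' ≠ 0 := by
      rw [Ne, Ideal.absNorm_eq_zero_iff]
      exact hP'0
    exact Ideal.absNorm_ne_zero_iff _ |>.1 h1
  have hfin : Module.Finite (𝓞 K ⧸ P) (𝓞 K₁ ⧸ P') := Module.Finite.of_finite
  have hdeg : (f.map (Ideal.Quotient.mk P)).natDegree = n := by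
    rw [hfm.natDegree_map, hfn]
  have hpos : 0 < Module.finrank (𝓞 K ⧸ P) (𝓞 K₁ ⧸ P') := Module.finrank_pos
  have hle := res_deg K K₁ P hP0 P'
  have h2 := irr_map (k := 𝓞 K ⧸ P) (L := 𝓞 K₁ ⧸ P') hirr
    (by rw [hdeg]; exact hcop _ hpos hle)
  have h3 : (f.map (Ideal.Quotient.mk P)).map (algebraMap (𝓞 K ⧸ P) (𝓞 K₁ ⧸ P')) =
      (f.map (algebraMap (𝓞 K) (𝓞 K₁))).map (Ideal.Quotient.mk P') := by
    rw [Polynomial.map_map, Polynomial.map_map]
    congr 1
  rw [h3] at h2
  exact h2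

theorem irr_rd (E : Type) [Field E] [NumberField E] (w : HeightOneSpectrum (𝓞 E))
    (f : (𝓞 E)[X]) (hf : Irreducible (f.map (Ideal.Quotient.mk w.asIdeal))) :
    Irreducible ((f.map (algebraMap (𝓞 E) (VR E w))).map (IsLocalRing.residue (VR E w))) := by
  have hmax : w.asIdeal.IsMaximal := w.isMaximal
  have hloc : IsLocalization.AtPrime (VR E w) w.asIdeal :=
    inferInstanceAs (IsLocalization w.asIdeal.primeCompl
      (HeightOneSpectrum.valuationSubringAtPrime E w))
  let eq : (𝓞 E ⧸ w.asIdeal) ≃+* IsLocalRing.ResidueField (VR E w) :=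
    IsLocalization.AtPrime.equivQuotMaximalIdeal w.asIdeal (VR E w)
  have h1 : (f.map (algebraMap (𝓞 E) (VR E w))).map (IsLocalRing.residue (VR E w)) =
      Polynomial.mapEquiv eq (f.map (Ideal.Quotient.mk w.asIdeal)) := by
    rw [Polynomial.mapEquiv_apply, Polynomial.map_map, Polynomial.map_map]
    congr 1
  rw [h1]
  exact (MulEquiv.irreducible_iff (Polynomial.mapEquiv eq)).2 hf

/-- the bound at one place with irreducible reduction of `h` -/
theorem loc_bound (nv : NvStmt) {E : Type} [Field E] [NumberField E] {g d p : ℕ} (hp : p.Prime)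
    (hd : Module.finrank ℚ E ≤ d) (C : Curve g E) (w : HeightOneSpectrum (𝓞 E))
    (hw : ((p : ℕ) : 𝓞 E) ∈ w.asIdeal) (h₁ : (VR E w)[X])
    (hh : h₁.map (algebraMap (VR E w) E) = C.h)
    (hirr : Irreducible (h₁.map (IsLocalRing.residue (VR E w)))) :
    orderOf C.infty ≤ bd g (d * (2 * g + 2)) p + bl g p d := by
  have hdvr : IsDiscreteValuationRing (VR E w) := vr_dvr E w
  have hinj := vr_inj E w
  have hhint : ∀ j, w.valuation E (C.h.coeff j) ≤ 1 := by
    intro j
    rw [← hh, coeff_map]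
    exact (vr_mem E w _).1 (h₁.coeff j).2
  by_cases hc1 : ∃ i, 1 ≤ w.valuation E (C.r.coeff i)
  · obtain ⟨i, hi⟩ := hc1
    have hri : C.r.coeff i ≠ 0 := by
      intro h0
      rw [h0, map_zero] at hi
      exact absurd hi (not_le.2 zero_lt_one)
    have hig : i ≤ g := (le_natDegree_of_ne_zero hri).trans C.deg_r
    refine (orderOf_le hp hd C hw (dom_of hig hri fun j _ => ?_)).trans (Nat.le_add_right _ _)
    exact (pow_le_one₀ zero_le (hhint j)).trans (one_le_pow₀ hi)
  push Not at hc1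
  -- the content of `r`
  obtain ⟨i₀, hi₀, hmax⟩ := Finset.exists_max_image (Finset.range (g + 1))
    (fun j => w.valuation E (C.r.coeff j)) ⟨0, by simp⟩
  have hmax' : ∀ j, w.valuation E (C.r.coeff j) ≤ w.valuation E (C.r.coeff i₀) := by
    intro j
    rcases Nat.lt_or_ge j (g + 1) with hj | hj
    · exact hmax j (Finset.mem_range.2 hj)
    · rw [coeff_eq_zero_of_natDegree_lt (lt_of_le_of_lt C.deg_r hj), map_zero]
      exact zero_le
  obtain ⟨c, hc⟩ : ∃ c, c = C.r.coeff i₀ := ⟨_, rfl⟩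
  have hc0 : c ≠ 0 := by
    intro h0
    apply C.r_ne_zero
    ext j
    have h1 := hmax' j
    rw [← hc, h0, map_zero, le_zero_iff, Valuation.zero_iff] at h1
    rw [h1, coeff_zero]
  have hclt : w.valuation E c < 1 := by
    rw [hc]
    exact hc1 i₀
  obtain ⟨c', hc'⟩ : ∃ c' : VR E w, algebraMap (VR E w) E c' = c :=
    ⟨⟨c, (vr_mem E w c).2 hclt.le⟩, rfl⟩
  obtain ⟨ρE, hρE⟩ : ∃ ρE : E[X], ρE = Polynomial.C c⁻¹ * C.r := ⟨_, rfl⟩
  have hρint : ∀ j, w.valuation E (ρE.coeff j) ≤ 1 := by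
    intro j
    rw [hρE, coeff_C_mul, map_mul, map_inv₀, mul_comm, ← div_eq_mul_inv, hc]
    exact div_le_one_of_le₀ (hmax' j) zero_le
  obtain ⟨ρ, hρ⟩ := vr_lift E w hρint
  have hrc : C.r = Polynomial.C c * ρE := by
    rw [hρE, ← mul_assoc, ← Polynomial.C_mul, mul_inv_cancel₀ hc0, C_1, one_mul]
  have hrmap : C.r = (Polynomial.C c' * ρ).map (algebraMap (VR E w) E) := by
    rw [Polynomial.map_mul, map_C, hc', hρ]
    exact hrc
  have hbc0 : c' ≠ 0 := by
    rintro rfl
    apply hc0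
    rw [← hc', map_zero]
  have hbcu : ¬ IsUnit c' := by
    rw [vr_lt]
    have h1 : ((c' : VR E w) : E) = c := hc'
    rw [h1]
    exact hclt
  have hres : ∀ x : VR E w, IsLocalRing.residue (VR E w) x = 0 ↔ w.valuation E (x : E) < 1 := by
    intro x
    rw [IsLocalRing.residue_eq_zero_iff, IsLocalRing.mem_maximalIdeal, mem_nonunits_iff, vr_lt]
  have hρne : ρ.map (IsLocalRing.residue (VR E w)) ≠ 0 := by
    intro h0
    have h1 : IsLocalRing.residue (VR E w) (ρ.coeff i₀) = 0 := by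
      rw [← coeff_map, h0, coeff_zero]
    rw [hres] at h1
    have h2 : ((ρ.coeff i₀ : VR E w) : E) = 1 := by
      have h3 : algebraMap (VR E w) E (ρ.coeff i₀) = ρE.coeff i₀ := by rw [← hρ, coeff_map]
      have h4 : ρE.coeff i₀ = 1 := by
        rw [hρE, coeff_C_mul, ← hc, inv_mul_cancel₀ hc0]
      rw [h4] at h3
      exact h3
    rw [h2, map_one] at h1
    exact lt_irrefl _ h1
  have hρdeg : (ρ.map (IsLocalRing.residue (VR E w))).natDegree ≤ g := by
    refine natDegree_map_le.trans ?_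
    have h1 : (ρ.map (algebraMap (VR E w) E)).natDegree = ρ.natDegree :=
      natDegree_map_eq_of_injective hinj _
    rw [← h1, hρ, hρE]
    exact (natDegree_C_mul_le _ _).trans C.deg_r
  have hhmon : h₁.Monic := by
    have h1 : (h₁.map (algebraMap (VR E w) E)).Monic := by
      rw [hh]
      exact C.monic
    exact (Function.Injective.monic_map_iff hinj).2 h1
  have hhdeg : (h₁.map (IsLocalRing.residue (VR E w))).natDegree = g + 1 := by
    rw [hhmon.natDegree_map, ← natDegree_map_eq_of_injective hinj, hh]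
    exact C.deg_h
  have hcop : IsCoprime (rd _ h₁) (rd _ ρ) := by
    refine (hirr.coprime_iff_not_dvd).2 fun hdvd => ?_
    have h1 : (h₁.map (IsLocalRing.residue (VR E w))).natDegree ≤
        (ρ.map (IsLocalRing.residue (VR E w))).natDegree := natDegree_le_of_dvd hdvd hρne
    rw [hhdeg] at h1
    exact absurd (h1.trans hρdeg) (by omega)
  by_cases hfin : IsOfFinOrder C.infty
  · obtain ⟨n, hn, hn1⟩ := isOfFinOrder_iff_pow_eq_one.1 hfin
    obtain ⟨N, hN0, hNB, hN⟩ := nv E w p g hp hw h₁ ρ c' C.h C.r C.shape hbc0 hbcu hcop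
      hh.symm hrmap ⟨n, hn, (C.infty_pow_eq_one_iff n).1 hn1⟩
    have h5 : bl g p (Module.finrank ℚ E) ≤ bl g p d := by
      unfold bl
      have h6 : p ^ Module.finrank ℚ E ≤ p ^ d := Nat.pow_le_pow_right hp.pos hd
      gcongr
    exact ((orderOf_le_of_pow_eq_one hN0 ((C.infty_pow_eq_one_iff N).2 hN)).trans
      (hNB.trans h5)).trans (Nat.le_add_left _ _)
  · rw [orderOf_eq_zero hfin]
    exact Nat.zero_le _

/-- IR -/
theorem ir (nv : NvStmt) : IrStmt := by
  intro K K₁ _ _ _ _ _ g D d p hcop hD hd hp v hv h hm hirr C hC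
  have hn : h.natDegree = g + 1 := by
    have h1 := C.deg_h
    rw [hC, natDegree_map, natDegree_map_eq_of_injective
      (FaithfulSMul.algebraMap_injective (𝓞 K) K)] at h1
    exact h1
  obtain ⟨w, hw, hwi⟩ := irr_res K K₁ h hm hn v.asIdeal v.isPrime v.ne_bot hirr
    (fun i h0 hi => hcop i h0 (hi.trans hD))
  have h2 := irr_rd K₁ w _ hwi
  refine loc_bound nv hp ?_ C w ?_ _ ?_ h2
  · rw [← Module.finrank_mul_finrank ℚ K K₁, mul_comm]
    exact Nat.mul_le_mul hD hd
  · have h3 := hw _ hv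
    rwa [map_natCast] at h3
  · rw [hC, Polynomial.map_map, Polynomial.map_map, Polynomial.map_map]
    congr 1

end Pool.Agent.TS.H17
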