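import Pool.Agent.Helper17_TS.Cnt
import Pool.Agent.Helper17_TS.Loc

/-!
The mean over `h`, uniformly in `r`.
-/

set_option autoImplicit false

open Polynomial NumberField IsDedekindDomain

namespace Pool.Agent.TS.H17

open H12UBI H58UB Pool.Agent.TS H31M

theorem exists_primes (m : ℕ) : ∃ S : Finset ℕ, S.card = m ∧ (∀ p ∈ S, p.Prime) ∧
    ∀ p ∈ S, 3 ≤ p := by
  have h1 : ({p : ℕ | p.Prime} \ {2}).Infinite :=
    Nat.infinite_setOfPred_prime.sdiff (Set.finite_singleton 2)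
  obtain ⟨S, hS, hc⟩ := h1.exists_subset_card_eq m
  refine ⟨S, hc, fun p hp => (hS hp).1, fun p hp => ?_⟩
  have h2 : p.Prime := (hS hp).1
  have h3 : p ≠ 2 := fun h => (hS hp).2 h
  have := h2.two_le
  omega

theorem exists_place (K : Type) [Field K] [NumberField K] (p : ℕ) (hp : p.Prime) :
    ∃ P : Ideal (𝓞 K), P.IsPrime ∧ ((p : ℕ) : 𝓞 K) ∈ P := by
  have hpi : (Ideal.span {(p : ℤ)}).IsPrime := by
    rw [Ideal.span_singleton_prime (by exact_mod_cast hp.ne_zero)]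
    exact Nat.prime_iff_prime_int.1 hp
  obtain ⟨⟨P', hP'prime, hP'v⟩⟩ := Ideal.nonempty_primesOver (S := 𝓞 K) (Ideal.span {(p : ℤ)})
  refine ⟨P', hP'prime, ?_⟩
  have h1 : (p : ℤ) ∈ P'.under ℤ := by
    rw [← hP'v.over]
    exact Ideal.mem_span_singleton_self _
  have h2 : algebraMap ℤ (𝓞 K) (p : ℤ) ∈ P' := h1
  simpa using h2

/-- MN -/
theorem mn (nv : NvStmt) : MnStmt := by
  classical
  intro K _ _ ι _ b g D hcop ε hε
  obtain ⟨n, hn⟩ : ∃ n, n = g + 1 := ⟨_, rfl⟩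
  rw [← hn] at hcop ⊢
  have hn1 : 1 ≤ n := by omega
  have hnr : (1 : ℝ) ≤ n := by exact_mod_cast hn1
  have hpos : (0 : ℝ) < 2 * n - 1 := by linarith
  obtain ⟨A, hA⟩ : ∃ A, A = Fintype.card (Fin n × ι) := ⟨_, rfl⟩
  have hAr : A = Module.finrank ℚ K * n := by
    rw [hA, Fintype.card_prod, Fintype.card_fin, ← RingOfIntegers.rank K,
      Module.finrank_eq_card_basis b, mul_comm]
  obtain ⟨ρ, hρ⟩ : ∃ ρ : ℝ, ρ = (2 * n - 1) / (2 * n) := ⟨_, rfl⟩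
  have hρ0 : 0 < ρ := by
    rw [hρ]
    positivity
  have hρ1 : ρ < 1 := by
    rw [hρ, div_lt_one (by positivity)]
    linarith
  have h3A : (0 : ℝ) < 3 ^ A := by positivity
  obtain ⟨m, hm⟩ := exists_pow_lt_of_lt_one (div_pos hε h3A) hρ1
  obtain ⟨S, hSc, hS, hS3⟩ := exists_primes m
  choose! P hP1 hP2 using fun (p : ℕ) (hp : p.Prime) => exists_place K p hp
  obtain ⟨d, hd⟩ : ∃ d, d = Module.finrank ℚ K := ⟨_, rfl⟩
  refine ⟨∑ p ∈ S, (bd g (D * d * (2 * g + 2)) p + bl g p (D * d)), ∏ p ∈ S, p, ?_⟩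
  intro H hH
  have h1 := irr_count b P (fun p hp => ⟨hP1 p hp, hP2 p hp⟩) n hn1 S hS hS3 H (by omega)
  rw [hSc, ← hA] at h1
  obtain ⟨N, hN⟩ : ∃ N, N = {a : Fin n → 𝓞 K | (∀ i j, |b.repr (a i) j| ≤ H) ∧
        ∀ p ∈ S, ¬ Irreducible ((poly a).map (Ideal.Quotient.mk (P p)))} := ⟨_, rfl⟩
  rw [← hN] at h1
  have hNb : (N.ncard : ℝ) ≤ ε * (2 * H + 1) ^ A := by
    have h2 : (2 * n : ℝ) / (2 * n - 1) = ρ⁻¹ := by rw [hρ, inv_div]
    rw [h2, inv_pow, mul_pow, ← div_eq_mul_inv, div_le_iff₀ (pow_pos hρ0 m)] at h1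
    refine h1.trans ?_
    have h4 : (0 : ℝ) ≤ (2 * H + 1) ^ A := by positivity
    have h5 : ρ ^ m * 3 ^ A ≤ ε := by
      rw [lt_div_iff₀ h3A] at hm
      exact hm.le
    calc (3 : ℝ) ^ A * (2 * H + 1) ^ A * ρ ^ m = (ρ ^ m * 3 ^ A) * (2 * H + 1) ^ A := by ring
      _ ≤ ε * (2 * H + 1) ^ A := mul_le_mul_of_nonneg_right h5 h4
  rw [← hAr]
  refine le_trans ?_ hNb
  have hfin : N.Finite := by
    rw [hN]
    exact box_fin b n H _
  refine Nat.cast_le.2 (Set.ncard_le_ncard ?_ hfin)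
  rintro a ⟨hbox, K₁, _, _, _, C, hD, hC, hB⟩
  rw [hN]
  refine ⟨hbox, fun p hp hirr => ?_⟩
  have hpp := hS p hp
  have hne : P p ≠ ⊥ := by
    intro h0
    have h1 := hP2 p hpp
    rw [h0, Ideal.mem_bot, Nat.cast_eq_zero] at h1
    exact hpp.ne_zero h1
  subst hn
  have h6 := ir nv K K₁ g D d p hcop hD hd.ge hpp ⟨P p, hP1 p hpp, hne⟩ (hP2 p hpp) (poly a)
    (poly_monic a) hirr C (by
      rw [hC, Polynomial.map_map, poly_map]
      rfl)
  have h7 : bd g (D * d * (2 * g + 2)) p + bl g p (D * d) ≤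
      ∑ p ∈ S, (bd g (D * d * (2 * g + 2)) p + bl g p (D * d)) :=
    Finset.single_le_sum (f := fun p => bd g (D * d * (2 * g + 2)) p + bl g p (D * d))
      (fun _ _ => Nat.zero_le _) hp
  exact absurd hB (not_lt.2 (h6.trans h7))

end Pool.Agent.TS.H17
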